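import Pool.Agent.H43.BZ.Stm

/-!
# The change of variables `y = (z + ‖z‖ σ) / 2` for fixed `σ` (task CV)
-/

set_option autoImplicit false

open MeasureTheory Metric Set
open scoped RealInnerProductSpace ENNReal

namespace Pool.Agent.H181.BZ

open Pool.Agent.H43.BZ

/-- the inverse map -/
noncomputable def ps {d : ℕ} (σ y : E d) : E d := (2 : ℝ) • y - (‖y‖ ^ 2 / ⟪y, σ⟫) • σ

/-- the derivative of `‖y‖² / ⟪y, σ⟫` -/
noncomputable def Dh {d : ℕ} (σ y : E d) : E d →L[ℝ] ℝ :=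
  (‖y‖ ^ 2) • ((-(⟪y, σ⟫ ^ 2)⁻¹) • innerSL ℝ σ) + (⟪y, σ⟫)⁻¹ • ((2 : ℝ) • innerSL ℝ y)

/-- the derivative of `ps` -/
noncomputable def ps' {d : ℕ} (σ y : E d) : E d →L[ℝ] E d :=
  (2 : ℝ) • ContinuousLinearMap.id ℝ (E d) - (Dh σ y).smulRight σ

theorem hasFDeriv_h {d : ℕ} {σ y : E d} (hy : 0 < ⟪y, σ⟫) :
    HasFDerivAt (fun y : E d => ‖y‖ ^ 2 / ⟪y, σ⟫) (Dh σ y) y := by
  have h1 : HasFDerivAt (fun y : E d => ‖y‖ ^ 2) ((2 : ℝ) • innerSL ℝ y) y := by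
    have h := (hasStrictFDerivAt_norm_sq y).hasFDerivAt
    have e : (2 : ℕ) • innerSL ℝ y = (2 : ℝ) • innerSL ℝ y := by
      rw [two_smul, two_smul]
    rw [e] at h
    exact h
  have h2 : HasFDerivAt (fun y : E d => ⟪y, σ⟫) (innerSL ℝ σ) y := by
    have h := (innerSL ℝ σ).hasFDerivAt (x := y)
    have e : (fun y : E d => ⟪y, σ⟫) = fun y => innerSL ℝ σ y := by
      funext y
      rw [innerSL_apply_apply, real_inner_comm]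
    rw [e]
    exact h
  have h3 := (hasDerivAt_inv hy.ne').comp_hasFDerivAt y h2
  have h4 := h1.mul h3
  exact h4

theorem hasFDeriv_ps {d : ℕ} {σ y : E d} (hy : 0 < ⟪y, σ⟫) : HasFDerivAt (ps σ) (ps' σ y) y := by
  have h1 : HasFDerivAt (fun y : E d => (2 : ℝ) • y) ((2 : ℝ) • ContinuousLinearMap.id ℝ (E d)) y :=
    (hasFDerivAt_id y).const_smul (2 : ℝ)
  exact h1.sub ((hasFDeriv_h hy).smul_const σ)

theorem Dh_apply {d : ℕ} {σ y : E d} (hσ : ‖σ‖ = 1) (hy : 0 < ⟪y, σ⟫) :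
    Dh σ y σ = 2 - ‖y‖ ^ 2 / ⟪y, σ⟫ ^ 2 := by
  have h1 : Dh σ y σ = ‖y‖ ^ 2 * (-(⟪y, σ⟫ ^ 2)⁻¹ * ⟪σ, σ⟫) + (⟪y, σ⟫)⁻¹ * (2 * ⟪y, σ⟫) := rfl
  rw [h1, real_inner_self_eq_norm_sq, hσ]
  field_simp
  ring

theorem det_ps {d : ℕ} (hd : 2 ≤ d) {σ y : E d} (hσ : ‖σ‖ = 1) (hy : 0 < ⟪y, σ⟫) :
    |(ps' σ y).det| = 2 ^ (d - 1) * ‖y‖ ^ 2 / ⟪y, σ⟫ ^ 2 := by
  have h1 : ((ps' σ y : E d →L[ℝ] E d) : E d →ₗ[ℝ] E d) =
      (2 : ℝ) • LinearMap.transvection ((-(1 / 2 : ℝ)) • ((Dh σ y : E d →L[ℝ] ℝ) : E d →ₗ[ℝ] ℝ)) σ := by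
    refine LinearMap.ext fun v => ?_
    show (2 : ℝ) • v - Dh σ y v • σ = (2 : ℝ) • (v + ((-(1 / 2 : ℝ)) * Dh σ y v) • σ)
    rw [smul_add, smul_smul, sub_eq_add_neg, ← neg_smul]
    congr 2
    ring
  have h2 : (ps' σ y).det = 2 ^ d * (1 + (-(1 / 2 : ℝ)) * Dh σ y σ) := by
    show LinearMap.det ((ps' σ y : E d →L[ℝ] E d) : E d →ₗ[ℝ] E d) = _
    rw [h1, LinearMap.det_smul, LinearMap.transvection.det, finrank_euclideanSpace_fin]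
    rfl
  have h3 : (ps' σ y).det = 2 ^ (d - 1) * ‖y‖ ^ 2 / ⟪y, σ⟫ ^ 2 := by
    rw [h2, Dh_apply hσ hy]
    have e : (2 : ℝ) ^ d = 2 ^ (d - 1) * 2 := by
      rw [← pow_succ]
      congr 1
      omega
    rw [e]
    ring
  rw [h3, abs_of_nonneg]
  positivity

theorem norm_ps {d : ℕ} {σ y : E d} (hσ : ‖σ‖ = 1) (hy : 0 < ⟪y, σ⟫) : ‖ps σ y‖ = ‖y‖ ^ 2 / ⟪y, σ⟫ := by
  have h1 : ‖ps σ y‖ ^ 2 = (‖y‖ ^ 2 / ⟪y, σ⟫) ^ 2 := by
    unfold ps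
    rw [norm_sub_sq_real, norm_smul, norm_smul, hσ, inner_smul_left, inner_smul_right, Real.norm_eq_abs,
      Real.norm_eq_abs, mul_one, sq_abs, mul_pow, sq_abs]
    simp only [conj_trivial]
    field_simp
    ring
  have h2 : 0 ≤ ‖y‖ ^ 2 / ⟪y, σ⟫ := by positivity
  exact (pow_left_inj₀ (norm_nonneg _) h2 two_ne_zero).mp h1

theorem ps_inv {d : ℕ} {σ y : E d} (hσ : ‖σ‖ = 1) (hy : 0 < ⟪y, σ⟫) :
    (1 / 2 : ℝ) • (ps σ y + ‖ps σ y‖ • σ) = y := by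
  rw [norm_ps hσ hy]
  unfold ps
  rw [sub_add_cancel, smul_smul]
  norm_num

theorem inj_ps {d : ℕ} {σ : E d} (hσ : ‖σ‖ = 1) : InjOn (ps σ) {y : E d | 0 < ⟪y, σ⟫} := by
  intro y hy z hz h
  rw [← ps_inv hσ hy, ← ps_inv hσ hz, h]

theorem mem_image {d : ℕ} {σ : E d} (hσ : ‖σ‖ = 1) {z : E d} (hz : 0 < ‖z‖ + ⟪z, σ⟫) :
    z ∈ ps σ '' {y : E d | 0 < ⟪y, σ⟫} := by
  obtain ⟨y, hy⟩ : ∃ y : E d, y = (1 / 2 : ℝ) • (z + ‖z‖ • σ) := ⟨_, rfl⟩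
  have h1 : ⟪y, σ⟫ = (‖z‖ + ⟪z, σ⟫) / 2 := by
    rw [hy, inner_smul_left, inner_add_left, inner_smul_left, real_inner_self_eq_norm_sq, hσ]
    simp only [conj_trivial]
    ring
  have h2 : ‖y‖ ^ 2 = ‖z‖ * ⟪y, σ⟫ := by
    rw [h1, hy, norm_smul, mul_pow, norm_add_sq_real, inner_smul_right, norm_smul, hσ]
    simp only [Real.norm_eq_abs, abs_norm, mul_one]
    rw [sq_abs]
    ring
  have h3 : 0 < ⟪y, σ⟫ := by
    rw [h1]
    linarith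
  refine ⟨y, h3, ?_⟩
  unfold ps
  rw [h2, mul_div_assoc, div_self h3.ne', mul_one, hy, smul_smul]
  norm_num

theorem ae_mem {d : ℕ} (hd : 2 ≤ d) {σ : E d} (hσ : ‖σ‖ = 1) :
    ∀ᵐ z : E d, z ∈ ps σ '' {y : E d | 0 < ⟪y, σ⟫} := by
  have h0 : (volume : Measure (E d)) (Submodule.span ℝ {σ} : Submodule ℝ (E d)) = 0 := by
    refine Measure.addHaar_submodule _ _ fun htop => ?_
    have h1 := congrArg (fun W : Submodule ℝ (E d) => Module.finrank ℝ W) htop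
    simp only [finrank_top, finrank_euclideanSpace_fin] at h1
    have h2 := finrank_span_le_card (R := ℝ) ({σ} : Set (E d))
    simp only [Set.toFinset_singleton, Finset.card_singleton] at h2
    omega
  rw [ae_iff]
  refine measure_mono_null ?_ h0
  intro z hz
  have h1 : ¬ 0 < ‖z‖ + ⟪z, σ⟫ := fun h => hz (mem_image hσ h)
  have h2 : -‖z‖ ≤ ⟪z, σ⟫ := by
    have h3 := abs_real_inner_le_norm z σ
    rw [hσ, mul_one] at h3
    exact (abs_le.mp h3).1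
  have h4 : ⟪z, σ⟫ = -‖z‖ := by linarith
  have h5 : ‖z + ‖z‖ • σ‖ ^ 2 = 0 := by
    rw [norm_add_sq_real, inner_smul_right, h4, norm_smul, hσ]
    simp only [Real.norm_eq_abs, abs_norm, mul_one]
    ring
  have h6 : z + ‖z‖ • σ = 0 := by
    rw [← norm_eq_zero]
    exact pow_eq_zero_iff (two_ne_zero) |>.mp h5
  have h7 : z = (-‖z‖) • σ := by
    rw [neg_smul]
    exact eq_neg_of_add_eq_zero_left h6
  rw [SetLike.mem_coe, Submodule.mem_span_singleton]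
  exact ⟨-‖z‖, h7.symm⟩

theorem CV : S_CV := by
  intro d hd σ hσ G hG
  have hs : MeasurableSet {y : E d | 0 < ⟪y, σ⟫} :=
    measurableSet_lt measurable_const (by fun_prop)
  have h1 := lintegral_image_eq_lintegral_abs_det_fderiv_mul (volume : Measure (E d)) hs
    (fun y hy => (hasFDeriv_ps (σ := σ) hy).hasFDerivWithinAt) (inj_ps hσ) G
  rw [Measure.restrict_eq_self_of_ae_mem (ae_mem hd hσ)] at h1
  rw [h1, ← lintegral_indicator hs]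
  refine lintegral_congr fun y => ?_
  by_cases hy : 0 < ⟪y, σ⟫
  · rw [indicator_of_mem (show y ∈ {y : E d | 0 < ⟪y, σ⟫} from hy), if_pos hy, det_ps hd hσ hy]
    rfl
  · rw [indicator_of_notMem (show y ∉ {y : E d | 0 < ⟪y, σ⟫} from hy), if_neg hy]

end Pool.Agent.H181.BZ

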